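import Pool.Agent.H71.V0F.Dj

/-!
# All codes of the target over charts of the window `w`, from a later record

`jt_p`: the codes of the own path of the target over charts of the window `w` to the radius `q`, from
the record at a later window `x` and from positions and velocities of the chain over the (rough)
charts of the base window `b`. The windows between `w` and `x` are passed by steps of length `≤ 4 φ`.
-/

set_option autoImplicit false

namespace Pool.V0F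

open Finset Real MvPolynomial
open Pool.Agent.H49.Ent Pool.Agent.H32.Dense Pool.STK Pool.KA Pool.KSAT Pool.K2S Pool.PB Pool.GEN
open Pool.S6C Pool.RCD Pool.LA91 Pool.AVG96
open Pool.OWN68 (RawN F1)
open Pool.AVG71 (cod)
open Pool.GRD (LbP)
open Pool.AJW (FwL ctx CfB TgtN TwoN cod_Fj_p)
open Pool.AJX (JetX LbX FwX MshX)

variable {m : ℕ} {S : PCl m} {c : ℕ → Fin m} {r : ℕ} {sn : ℕ → ℝ → ℝ} {G : Set ℝ} {b o φ : ℝ}

/-- **Windows between `w` and `x`**, with steps of length `≤ 4 φ`. -/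
theorem lad_mesh (L : Lad S c r sn G b o φ) {w x : ℝ} (hw : w ∈ G) (hx : x ∈ G) (hbw : b ≤ w)
    (hwx : w ≤ x) (hxo : x ≤ o) : ∃ (M : ℕ) (B : ℕ → ℝ), B 0 = w ∧ B M = x ∧
      (∀ k ≤ M, B k ∈ G ∧ w ≤ B k ∧ B k ≤ x) ∧
      (∀ k < M, B k ≤ B (k + 1) ∧ B (k + 1) ≤ B k + 4 * φ) := by
  classical
  have hφ := L.φ0
  obtain ⟨M, hM⟩ : ∃ M : ℕ, M = ⌊(x - w - φ) / (2 * φ)⌋₊ := ⟨_, rfl⟩
  have hM1 : x - w - φ < (M + 1) * (2 * φ) := by
    have := Nat.lt_floor_add_one ((x - w - φ) / (2 * φ))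
    rw [← hM, div_lt_iff₀ (by positivity)] at this
    exact_mod_cast this
  have hM0 : M ≠ 0 → (M : ℝ) * (2 * φ) ≤ x - w - φ := fun h0 => by
    have h1 : (M : ℝ) ≤ (x - w - φ) / (2 * φ) := by
      rw [hM]
      refine Nat.floor_le ?_
      by_contra h2
      rw [not_le] at h2
      exact h0 (by rw [hM]; exact Nat.floor_of_nonpos h2.le)
    rwa [le_div_iff₀ (by positivity)] at h1
  have hpt : ∀ k ≤ M, k ≠ 0 → (k : ℝ) * (2 * φ) ≤ x - w - φ := fun k hk h0 => by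
    refine le_trans ?_ (hM0 (by omega))
    have : (k : ℝ) ≤ M := by exact_mod_cast hk
    nlinarith
  have hex : ∀ k : ℕ, ∃ v : ℝ, (k ≤ M → k ≠ 0 → v ∈ G ∧ |v - (w + k * (2 * φ))| ≤ φ) := by
    intro k
    by_cases hk : k ≤ M ∧ k ≠ 0
    · have h1 := hpt k hk.1 hk.2
      have h2 : 0 ≤ (k : ℝ) * (2 * φ) := by positivity
      obtain ⟨v, hv, h3⟩ := L.gap (w + k * (2 * φ)) (by linarith) (by linarith)
      exact ⟨v, fun _ _ => ⟨hv, h3⟩⟩
    · exact ⟨0, fun h1 h2 => absurd ⟨h1, h2⟩ hk⟩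
  choose V hV using hex
  have hVb : ∀ k ≤ M, k ≠ 0 → w + k * (2 * φ) - φ ≤ V k ∧ V k ≤ w + k * (2 * φ) + φ :=
    fun k h1 h2 => by
      have := abs_le.1 (hV k h1 h2).2
      constructor <;> linarith
  have hstep : ∀ k : ℕ, k ≤ M + 1 → ∀ B : ℕ → ℝ,
      B = (fun k => if k = 0 then w else if k ≤ M then V k else x) →
      (B k ∈ G ∧ w ≤ B k ∧ B k ≤ x) := by
    intro k hk B hB
    subst hB
    dsimp only
    by_cases h0 : k = 0
    · simp [h0, hw, hwx]
    · rw [if_neg h0]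
      by_cases h1 : k ≤ M
      · rw [if_pos h1]
        have h2 := hVb k h1 h0
        have h3 := hpt k h1 h0
        have h4 : (1 : ℝ) ≤ k := by exact_mod_cast Nat.one_le_iff_ne_zero.2 h0
        exact ⟨(hV k h1 h0).1, by nlinarith, by linarith⟩
      · rw [if_neg h1]
        exact ⟨hx, hwx, le_rfl⟩
  refine ⟨M + 1, fun k => if k = 0 then w else if k ≤ M then V k else x, by simp, by simp,
    fun k hk => hstep k hk _ rfl, fun k hk => ?_⟩
  have hkM : k ≤ M := by omega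
  dsimp only
  rw [if_neg (Nat.succ_ne_zero k)]
  by_cases h0 : k = 0
  · subst h0
    rw [if_pos rfl]
    by_cases h1 : 0 + 1 ≤ M
    · rw [if_pos h1]
      have h2 := hVb (0 + 1) h1 (Nat.succ_ne_zero 0)
      push_cast at h2
      constructor <;> linarith
    · rw [if_neg h1]
      obtain rfl : M = 0 := by omega
      push_cast at hM1
      constructor <;> linarith
  · rw [if_neg h0, if_pos hkM]
    have h2 := hVb k hkM h0
    by_cases h1 : k + 1 ≤ M
    · rw [if_pos h1]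
      have h3 := hVb (k + 1) h1 (Nat.succ_ne_zero k)
      push_cast at h3
      constructor <;> nlinarith
    · rw [if_neg h1]
      obtain rfl : M = k := by omega
      have h3 := hpt M le_rfl h0
      constructor <;> nlinarith

/-- **(JT)** All codes of the own path of the target over charts of the window `w`, to the radius `q`,
from the record at `x` and from positions and velocities of the chain over the charts of `b`. -/
theorem jt_p (K : ℕ) {h : ℝ} (hh : 0 < h) (hh1 : h ≤ 1) {ε : ℝ} (hε : 0 < ε) (r : ℕ) :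
    ∃ δ : ℝ, 0 < δ ∧
    ∀ {m : ℕ} {S : PCl m} {c : ℕ → Fin m} {sn : ℕ → ℝ → ℝ} {G : Set ℝ} {b o φ : ℝ},
    Lad S c r sn G b o φ → ∀ {α γ : ∀ J : ℕ, Fam m J → Type}
    {f : ∀ (J : ℕ) (F : Fam m J), F.Ω → α J F} {y : ∀ (J : ℕ) (F : Fam m J), F.Ω → γ J F},
    (∀ (J : ℕ) (F : Fam m J), ∃ χ : α J F → PtT F, ∀ ω, ptr F J ω = χ (f J F ω)) →
    Kn ((range 0).image c) 1 1 y → ∀ {w x ox q g₀ : ℝ} {p n E rd : ℕ → ℝ}, w ∈ G → x ∈ G →
    b ≤ w → w < x → x ≤ o → x ≤ ox → ox ≤ 1 → 0 < q → 0 < g₀ → 0 ≤ sn r w →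
    sn r w + q + E r + g₀ ≤ 1 → x + q + 60 * ((r : ℝ) + 2) * φ ≤ 1 →
    (∀ i ≤ r, 0 ≤ E i ∧ E i ≤ 1) → (∀ i ≤ r, 0 ≤ rd i ∧ rd i + g₀ ≤ 1) →
    (∀ i < r, n i + E i + g₀ ≤ 1) → (∀ i < r, sn i b - φ ≤ p i) → Nst r sn w φ n →
    (∀ i < r, sn i x + 60 * ((r : ℝ) + 2) * φ ≤ n i) →
    (∀ i < r, q + 60 * ((r : ℝ) + 2) * φ ≤ n i - sn i w) → q + 60 * φ ≤ sn r x - sn r w →
    (∀ i < r, n i - sn i w + 60 * φ ≤ w - b) → 60 * ((r : ℝ) + 2) ^ 2 * φ ≤ δ * q →
    (∀ q' : ℝ, 0 ≤ q' → q' ≤ q →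
      RawN S ((range r).image c) (c r) (sn r w) q' h (δ * q)) →
    (∀ e : ℝ, 0 < e → Bas S (fun J F A => ∃ (V : Type) (z : PtT F → V) (z' : LnT F → V)
      (g : V → ℕ → MvPolynomial (Option (Fin m)) ℝ),
      LbE F c (r + 1) K E e w rd (fun l => sn l w) A z z' g)) →
    ∃ e₀ : ℝ, 0 < e₀ ∧ ∀ e : ℝ, 0 < e → e ≤ e₀ → ∀ (K₀ K' : ℕ) (Pt Ec : ℝ),
      sn r w - φ ≤ Pt →
      Bas S (fun J F A => ∀ u₀ : F.Ω → ℕ → ℕ → ℤ,
        (jetQ m c 0 r b p (fun l j' => n l - (j' : ℝ) * w)).P K₀ e J F A u₀ →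
        ∀ (V : Type) (z : PtT F → V) (z' : LnT F → V)
        (G' : V → MvPolynomial (Option (Fin m)) ℝ), LbP F ((range r).image c) (c r) K'
          J ⌊w * J⌋₊ ⌊(Pt - e) * J⌋₊ A z z' G' → CfB F ⌊w * J⌋₊ Ec (c r) A z' G' →
        ∃ (V₁ : Type) (z₁ : F.Ω → V₁), Cl2 (f J F) (vg ox J F) A z₁ ∧
          ∀ s : ℝ, 0 < s → s ≤ 2 ^ ((sn r w + q) * J) →
          CH (Pool.Agent.H49.Ent.cond F.p A True)
            (cod F ⌊w * J⌋₊ 0 (K' + 1) s (c r) z' G')
            (fun ω => (u₀ ω, (z₁ ω, y J F ω))) ≤ ε * q * J) := by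
  obtain ⟨δ, hδ, H⟩ := Pool.AJX.jt_Q K hh hh1 (ε := ε / 2) (by positivity)
  refine ⟨δ, hδ, ?_⟩
  intro m S c sn G b o φ L α γ f y hf hy w x ox q g₀ p n E rd hw hx hbw hwx hxo hox hox1 hq hg₀ hs0
    hs1 hxq hE hrd hn1 hp hn hnx hnq hqx hnb hφδ hraw hlb
  obtain ⟨C₀, htm⟩ := L.tm
  have hφ := L.φ0
  have hr0 : (0 : ℝ) ≤ r := Nat.cast_nonneg r
  have hrφ : 0 ≤ (r : ℝ) * φ := by positivity
  obtain ⟨M, B, hB0, hBM, hBG, hBs⟩ := lad_mesh L hw hx hbw hwx.le hxo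
  have hyT : ∀ (J : ℕ) (F : Fam m J), ∃ φ : γ J F → ℕ, ∀ ω, F.T ω = φ (y J F ω) := by
    intro J F
    obtain ⟨φ, hφ⟩ := hy J F
    exact ⟨fun x => (φ x).1, fun ω => (congrArg Prod.fst (hφ ω)).symm⟩
  have hx1 : x + 120 * φ ≤ 1 := by nlinarith
  have hw0 : 0 ≤ w := L.b0.trans hbw
  -- the slopes
  have u1 : ∀ i < r, ∀ v ∈ G, w ≤ v → v ≤ x → sn i v ≤ sn i w + (v - w) + 2 * φ :=
    fun i hi v hv h1 h2 => by
      have := L.dif hi hw hv hbw (hwx.le.trans hxo) (by linarith) (by linarith)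
      linarith
  have u2 : ∀ i < r, ∀ v ∈ G, w ≤ v → v ≤ x → sn i w + (v - w) - 2 * φ ≤ sn i v :=
    fun i hi v hv h1 h2 => by
      have := L.dif hi hv hw (by linarith) (by linarith) hbw (hwx.le.trans hxo)
      linarith
  have u3 : ∀ v ∈ G, w ≤ v → v ≤ x → sn r w + (v - w) - φ ≤ sn r v := fun v hv h1 h2 => by
    have := L.st w hw v hv hbw h1 (by linarith)
    linarith
  have HM : MshX S c 0 r B M sn n n (1 - φ) φ := by
    constructor
    · exact Nat.zero_le r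
    · exact hφ
    · rw [hB0]; exact hw0
    · exact fun k hk => (hBs k hk).1
    · rw [hBM]; linarith
    · linarith
    · intro k hk
      obtain ⟨u₁, rv, hrv, hcv⟩ := L.ch.ch (B k) (hBG k hk).1
      exact ⟨u₁, rv, hcv, fun l _ hl => hrv l hl⟩
    · exact fun k hk i _ hi N => lad_exs' L (hBG k hk).1 hi 0 N
    · exact fun l _ _ => le_rfl
    · intro k hk l _ hl
      obtain ⟨h1, h2, h3⟩ := hBG k hk
      have e1 := u1 l hl _ h1 h2 h3
      have e2 := u2 l hl x hx hwx.le le_rfl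
      have e3 := hnx l hl
      nlinarith
    · intro k hk l _ hl
      obtain ⟨h1, h2, h3⟩ := hBG k hk
      have e1 := u2 l hl _ h1 h2 h3
      have e3 := hn.hi l hl
      linarith
    · intro k hk l _ hl l' _ hl'
      obtain ⟨h1, h2, h3⟩ := hBG k hk
      have e1 := u2 l hl _ h1 h2 h3
      have e2 := u1 l' (by omega) _ h1 h2 h3
      have e3 := hn.ne l hl l' hl'
      linarith
    · intro k hk l _ hl
      obtain ⟨h1, h2, h3⟩ := hBG k hk.le
      obtain ⟨h4, h5, h6⟩ := hBG (k + 1) hk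
      obtain ⟨h7, h8⟩ := hBs k hk
      have e1 := u2 l hl _ h1 h2 h3
      have e2 := u2 l hl _ h4 h5 h6
      have e3 := hn.hi l hl
      have : n l + φ - (1 - φ - B (k + 1)) ≤ min (sn l (B k)) (sn l (B (k + 1))) :=
        le_min (by linarith) (by linarith)
      linarith
    · intro k hk l _ hl l' _ hl'
      obtain ⟨h1, h2, h3⟩ := hBG k hk.le
      obtain ⟨h4, h5, h6⟩ := hBG (k + 1) hk
      obtain ⟨h7, h8⟩ := hBs k hk
      have e1 := u2 l hl _ h1 h2 h3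
      have e2 := u2 l hl _ h4 h5 h6
      have e4 := u1 l' (by omega) _ h4 h5 h6
      have e3 := hn.ne l hl l' hl'
      have : n l + 2 * φ - (n l' - sn l' (B (k + 1))) ≤ min (sn l (B k)) (sn l (B (k + 1))) :=
        le_min (by linarith) (by linarith)
      linarith
  have hN : ∀ i, 0 ≤ i → i < r → TgtN 0 i B M sn n (1 - φ) φ (sn i x - φ) ∧ sn i x - φ ≤ n i := by
    intro i _ hi
    have g1 := u1 i hi x hx hwx.le le_rfl
    refine ⟨⟨?_, fun k hk => ?_, fun k hk l _ hl => ?_⟩, ?_⟩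
    · rw [hBM]; linarith
    · obtain ⟨h1, h2, h3⟩ := hBG k hk.le
      obtain ⟨h4, h5, h6⟩ := hBG (k + 1) hk
      obtain ⟨h7, h8⟩ := hBs k hk
      have e1 := u2 i hi _ h1 h2 h3
      have e2 := u2 i hi _ h4 h5 h6
      have : sn i x - φ + φ - (1 - φ - B (k + 1)) ≤ min (sn i (B k)) (sn i (B (k + 1))) :=
        le_min (by linarith) (by linarith)
      linarith
    · obtain ⟨h1, h2, h3⟩ := hBG k hk.le
      obtain ⟨h4, h5, h6⟩ := hBG (k + 1) hk
      obtain ⟨h7, h8⟩ := hBs k hk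
      have hlr : l < r := by omega
      have e1 := u2 i hi _ h1 h2 h3
      have e2 := u2 i hi _ h4 h5 h6
      have e4 := u1 l hlr _ h4 h5 h6
      have e3 := hnx l hlr
      have e5 := u2 l hlr x hx hwx.le le_rfl
      have : sn i x - φ + 2 * φ - (n l - sn l (B (k + 1))) ≤
          min (sn i (B k)) (sn i (B (k + 1))) :=
        le_min (by nlinarith) (by nlinarith)
      linarith
    · have := hnx i hi
      nlinarith
  have hNr : TgtN 0 r B M sn n (1 - φ) φ (sn r (B 0) + q) := by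
    rw [hB0]
    refine ⟨?_, fun k hk => ?_, fun k hk l _ hl => ?_⟩
    · rw [hBM]; linarith
    · obtain ⟨h1, h2, h3⟩ := hBG k hk.le
      obtain ⟨h4, h5, h6⟩ := hBG (k + 1) hk
      obtain ⟨h7, h8⟩ := hBs k hk
      have e1 := u3 _ h1 h2 h3
      have e2 := u3 _ h4 h5 h6
      have : sn r w + q + φ - (1 - φ - B (k + 1)) ≤ min (sn r (B k)) (sn r (B (k + 1))) :=
        le_min (by linarith) (by linarith)
      linarith
    · obtain ⟨h1, h2, h3⟩ := hBG k hk.le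
      obtain ⟨h4, h5, h6⟩ := hBG (k + 1) hk
      obtain ⟨h7, h8⟩ := hBs k hk
      have e1 := u3 _ h1 h2 h3
      have e2 := u3 _ h4 h5 h6
      have e4 := u1 l hl _ h4 h5 h6
      have e3 := hnq l hl
      have : sn r w + q + 2 * φ - (n l - sn l (B (k + 1))) ≤
          min (sn r (B k)) (sn r (B (k + 1))) :=
        le_min (by nlinarith) (by nlinarith)
      linarith
  have hsum : ∑ i ∈ Finset.Ico 0 r, (sn i (B M) - (sn i x - φ)) ≤ δ * q := by
    rw [hBM]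
    have e1 : ∑ i ∈ Finset.Ico 0 r, (sn i x - (sn i x - φ)) = r * φ := by
      rw [Finset.sum_congr rfl fun i _ => (by ring : sn i x - (sn i x - φ) = φ),
        Finset.sum_const, Nat.card_Ico, Nat.sub_zero, nsmul_eq_mul]
    rw [e1]
    refine le_trans ?_ hφδ
    have : 0 ≤ (r : ℝ) * ((r : ℝ) * φ) := by positivity
    nlinarith
  have HT : TwoN 0 r (B 0) (1 - φ) (5 * φ) (fun l => sn l (B 0)) n
      (fun l => n l - sn l w - 10 * φ) := by
    rw [hB0]
    refine ⟨by positivity, fun l _ hl => ?_, fun l _ hl => ?_, fun l _ hl => ?_,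
      fun l _ hl l' _ hl' => ?_, fun l _ hl => ?_, fun l _ hl l' _ hl' => ?_⟩
    · show 0 < n l - sn l w - 10 * φ
      linarith [hn.lo l hl]
    · show sn l w + (n l - sn l w - 10 * φ) + 5 * φ ≤ n l
      linarith
    · show n l - sn l w - 10 * φ + 5 * φ ≤ 1 - φ - w
      linarith [hn.hi l hl]
    · show n l - sn l w - 10 * φ + 5 * φ ≤ n l' - sn l' w - 10 * φ
      linarith [hn.ne l hl l' hl']
    · show n l + 5 * φ ≤ sn l w + (1 - φ - w)
      linarith [hn.hi l hl]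
    · show n l + 5 * φ ≤ sn l w + (n l' - sn l' w - 10 * φ)
      linarith [hn.ne l hl l' hl']
  have hδq : 0 < δ * q := by positivity
  obtain ⟨e₁, he₁, hctx⟩ := vuj_ctx (f := f) (y := y) (E := E) (rd := rd) L hf hy
    (fun i hi => (hE i hi.le).2) hw hbw (hwx.le.trans hxo) (hwx.le.trans hox) hox1 hn hp
    (fun i hi => by linarith [hnb i hi])
    (Nf := fun l j' => n l - (j' : ℝ) * w) (fun i hi j hj => le_rfl)
    (kn_zero (p₁ := w + (1 - φ - w)) (lam₁ := 1 - φ - w) hy) (by linarith)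
    (fun i hi => (hrd i hi.le).1) K (r + 1) (Nat.le_succ r) hδq
  obtain ⟨e₀, he₀, -, HP⟩ := H htm HM (q := q) (g₀ := g₀) (E := E) (rd := rd)
    (N := fun i => sn i x - φ) (fun i _ hi => hE i hi) hq (by rw [hB0]; exact hs0) hg₀
    (by rw [hB0]; exact hs1) (fun i _ hi => hrd i hi) (fun i _ hi => hn1 i hi) (by linarith)
    (by rw [hB0]; nlinarith) hN hNr hsum HT hφ.le (by linarith)
    (by rw [hB0]; nlinarith) (fun l _ hl => by
      show q + 5 * φ ≤ n l - sn l w - 10 * φ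
      have := hnq l hl
      nlinarith)
    (Qu := jetQ m c 0 r b p (fun l j' => n l - (j' : ℝ) * w)) (f := f) (y := y) (a := ox)
    (e₁ := e₁) hf (kn_zero hy) (by rw [hBM]; exact hox) hox1 he₁
    (by rw [hB0]; exact hctx) (by rw [hB0]; exact hraw)
    (by
      rw [hB0]
      exact fun e he => Bas.mono 0 (hlb e he) fun J _ F A ⟨V, z, z', g, hl⟩ =>
        ⟨V, z, z', g, fun i _ hi => hl i hi⟩)
  refine ⟨e₀, he₀, fun e he hle K₀ K' Pt Ec hPt => ?_⟩
  have h1 := HP e he hle (K' + 1) Pt (by rw [hB0]; exact hPt)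
  rw [hB0] at h1
  exact cod_Fj_p htm hw0 (hwx.le.trans hox) hox1 hyT K' h1 (by nlinarith) K₀ Ec

end Pool.V0F
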