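import Pool.Agent.H44.V0F.S
import Pool.Agent.H54.OWN.Nfc
import Pool.Agent.H3.V0F.Ag

/-!
# The height of the target over the charts of a later window

`t_nup : NupStmt`: the height of the target over the charts of `w`, from the record at `j` and from
the positions of the chain over the charts of `b`. `t_nu0 : Nu0Stmt`.
-/

set_option autoImplicit false

namespace Pool.V0F

open Finset Real MvPolynomial
open Pool.Agent.H49.Ent Pool.Agent.H32.Dense Pool.STK Pool.KA Pool.KSAT Pool.K2S Pool.PB Pool.GEN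
open Pool.S6C Pool.RCD Pool.LA91 Pool.AVG96 Pool.OWN68
open Pool.GRD (LbP)

section lad

variable {m : ℕ} {S : PCl m} {c : ℕ → Fin m} {r : ℕ} {sn : ℕ → ℝ → ℝ} {G : Set ℝ} {b o φ : ℝ}

/-- Slopes one. -/
theorem Lad.flat (L : Lad S c r sn G b o φ) {i : ℕ} (hi : i < r) {v v' : ℝ} (hv : v ∈ G)
    (hv' : v' ∈ G) (h1 : b ≤ v) (h2 : v ≤ o) (h3 : b ≤ v') (h4 : v' ≤ o) :
    |(sn i v - v) - (sn i v' - v')| ≤ 2 * φ := by
  have a1 := abs_le.1 (L.fl i hi v hv h1 h2)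
  have a2 := abs_le.1 (L.fl i hi v' hv' h3 h4)
  rw [abs_le]
  constructor <;> linarith [a1.1, a1.2, a2.1, a2.2]

/-- A shorter ladder. -/
theorem Lad.cut (L : Lad S c r sn G b o φ) {b' : ℝ} (hb : b' ∈ G) (h1 : b ≤ b') (h2 : b' ≤ o) :
    Lad S c r sn G b' o φ where
  tm := L.tm
  pos := L.pos
  inj := L.inj
  ch := L.ch
  att := L.att
  bG := hb
  oG := L.oG
  b0 := L.b0.trans h1
  bo := h2
  o1 := L.o1
  φ0 := L.φ0
  gap := fun x hx hx' => L.gap x (h1.trans hx) hx'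
  fl := fun i hi v hv h3 h4 => L.fl i hi v hv (h1.trans h3) h4
  st := fun v hv v' hv' h3 h4 h5 => L.st v hv v' hv' (h1.trans h3) h4 h5

/-- The quantities of the chain exist. -/
theorem Lad.exs (L : Lad S c r sn G b o φ) {v : ℝ} (hv : v ∈ G) {j : ℕ} {N : ℕ → ℕ → ℝ} :
    Exs S (qJets m c 0 r j (fun _ _ => v) (fun l _ => sn l v) N) := by
  obtain ⟨u₁, rd, hrd, hch⟩ := L.ch.ch v hv
  exact exs_qjets fun l _ hl j' _ => exs_jet (hrd l hl) (hch.att l (Nat.zero_le _) hl)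

variable {α γ : ∀ J : ℕ, Fam m J → Type} {f : ∀ (J : ℕ) (F : Fam m J), F.Ω → α J F}
  {y : ∀ (J : ℕ) (F : Fam m J), F.Ω → γ J F}

/-- **One step up for the positions of the chain.** -/
theorem Lad.pos_step (L : Lad S c r sn G b o φ)
    (hf : ∀ (J : ℕ) (F : Fam m J), ∃ χ : α J F → PtT F, ∀ ω, ptr F J ω = χ (f J F ω))
    (hy : Kn ((range 0).image c) 1 1 y) {low up : ℝ} {pv n : ℕ → ℝ} (hl : low ∈ G) (hu : up ∈ G)
    (hbl : b ≤ low) (hlu : low ≤ up) (huo : up ≤ o) (hh : up - low ≤ 3 * φ)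
    (hpv : ∀ i < r, sn i low - φ ≤ pv i) (lo : ∀ i < r, sn i up + 2 * φ ≤ n i)
    (hi : ∀ i < r, n i + 8 * φ ≤ sn i up + (1 - up))
    (ne : ∀ i < r, ∀ l < i, n i - sn i up + 8 * φ ≤ n l - sn l up) :
    Few S f (vg up) y (qJets m c 0 r 0 (fun _ _ => low) (fun l _ => pv l) (fun l _ => n l))
      (qJets m c 0 r 0 (fun _ _ => up) (fun l _ => sn l up) (fun l _ => n l)) := by
  obtain ⟨C₀, htm⟩ := L.tm
  obtain ⟨u₁, rd, hrd, hch⟩ := L.ch.ch up hu
  have hφ := L.φ0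
  have hup1 := hch.u0
  have hup0 : 0 ≤ up := L.b0.trans (hbl.trans hlu)
  have hmin : min (1 : ℝ) (1 - up) = 1 - up := min_eq_right (by linarith)
  have hpm : ∀ i < r, sn i up - 6 * φ ≤ min (pv i) (sn i up) := by
    intro i hir
    have a1 := abs_le.1 (L.flat hir hl hu hbl (hlu.trans huo) (hbl.trans hlu) huo)
    refine le_min ?_ (by linarith)
    linarith [hpv i hir, a1.1]
  refine few_jets htm L.pos hch (lv := fun l => n l - sn l up - φ) (p₀ := 1) (lam := 1) (σ₀ := φ)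
    (fun _ _ _ _ _ => hlu) (fun _ _ _ _ _ => le_rfl) hup1 le_rfl one_pos hφ ?_ ?_ ?_ ?_
    (fun _ _ _ _ _ => le_rfl) ?_ ?_ hf hy
  · intro i _ hir
    linarith [lo i hir]
  · intro i _ hir j' hj'
    obtain rfl : j' = 0 := by omega
    push_cast
    linarith
  · intro i _ hir j' hj'
    rw [hmin]
    linarith [hi i hir, hpm i hir]
  · intro i _ hir j' hj' l _ hl
    linarith [ne i hir l hl, hpm i hir]
  · intro i _ hir j' hj'
    obtain rfl : j' = 0 := by omega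
    rw [hmin]
    push_cast
    linarith [hi i hir, hpm i hir]
  · intro i _ hir j' hj' l _ hl
    obtain rfl : j' = 0 := by omega
    push_cast
    linarith [ne i hir l hl, hpm i hir]

/-- **The positions of the chain over the charts of a later window.** -/
theorem Lad.pos_up (L : Lad S c r sn G b o φ)
    (hf : ∀ (J : ℕ) (F : Fam m J), ∃ χ : α J F → PtT F, ∀ ω, ptr F J ω = χ (f J F ω))
    (hy : Kn ((range 0).image c) 1 1 y) {v : ℝ} {p n : ℕ → ℝ} (hv : v ∈ G) (hbv : b ≤ v)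
    (hvo : v ≤ o) (hp : ∀ i < r, sn i b - φ ≤ p i)
    (lo : ∀ u ∈ G, b ≤ u → u ≤ v → ∀ i < r, sn i u + 2 * φ ≤ n i)
    (hi : ∀ u ∈ G, b ≤ u → u ≤ v → ∀ i < r, n i + 8 * φ ≤ sn i u + (1 - u))
    (ne : ∀ u ∈ G, b ≤ u → u ≤ v → ∀ i < r, ∀ l < i, n i - sn i u + 8 * φ ≤ n l - sn l u) :
    Few S f (vg v) y (qJets m c 0 r 0 (fun _ _ => b) (fun l _ => p l) (fun l _ => n l))
      (qJets m c 0 r 0 (fun _ _ => v) (fun l _ => sn l v) (fun l _ => n l)) := by
  have hφ := L.φ0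
  have hv1 : v ≤ 1 := (hvo.trans_lt L.o1).le
  obtain ⟨n', hn'⟩ := exists_nat_ge ((v - b) / φ)
  obtain ⟨N', w, w0, wN, hw, hs⟩ := gseq (h := 3 * φ) (ρ₀ := φ) L.bG (by linarith) n' v hv hbv (by
    rw [div_le_iff₀ hφ] at hn'
    linarith) (fun x h1 h2 => L.gap x h1 (h2.trans hvo))
  have hup : ∀ t ≤ N', ∀ (J : ℕ) (F : Fam m J), ∃ φ : LnT F → LnT F, ∀ ω,
      vg (w t) J F ω = φ (vg v J F ω) := fun t ht J F => vg_mono (hw t ht).2.2 hv1 J F
  have key : ∀ k ≤ N', Few S f (vg v) y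
      (qJets m c 0 r 0 (fun _ _ => b) (fun l _ => p l) (fun l _ => n l))
      (qJets m c 0 r 0 (fun _ _ => w (N' - k)) (fun l _ => sn l (w (N' - k))) (fun l _ => n l)) := by
    intro k
    induction k with
    | zero =>
      intro _
      rw [Nat.sub_zero, wN]
      have h1 := L.pos_step hf hy (pv := p) (n := n) L.bG L.bG le_rfl le_rfl L.bo
        (by linarith) hp (lo b L.bG le_rfl hbv) (hi b L.bG le_rfl hbv) (ne b L.bG le_rfl hbv)
      have h2 := hup N' le_rfl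
      rw [wN] at h2
      exact Few.up (f' := f) (y' := y) L.pos (fun J F => ⟨fun x => x, fun _ => rfl⟩) h2
        (fun J F => ⟨fun x => x, fun _ => rfl⟩) h1
    | succ k ih =>
      intro hk
      have h3 := ih (by omega)
      have e1 : N' - k = (N' - (k + 1)) + 1 := by omega
      rw [e1] at h3
      obtain ⟨q1, q2⟩ := hs (N' - (k + 1)) (by omega)
      obtain ⟨g1, g2, g3⟩ := hw (N' - (k + 1)) (by omega)
      obtain ⟨g4, g5, g6⟩ := hw (N' - (k + 1) + 1) (by omega)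
      have h4 := L.pos_step hf hy (pv := fun l => sn l (w (N' - (k + 1) + 1))) (n := n) g4 g1
        g5 q1 (g3.trans hvo) (by linarith) (fun i _ => by linarith) (lo _ g1 g2 g3)
        (hi _ g1 g2 g3) (ne _ g1 g2 g3)
      exact Few.trans L.pos (L.exs g4) h3 (Few.up (f' := f) (y' := y) L.pos
        (fun J F => ⟨fun x => x, fun _ => rfl⟩) (hup _ (by omega))
        (fun J F => ⟨fun x => x, fun _ => rfl⟩) h4)
  have h5 := key N' le_rfl
  rw [Nat.sub_self, w0] at h5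
  exact h5

/-- **One step for the target.** -/
theorem Lad.tgt_step (L : Lad S c r sn G b o φ)
    (hf : ∀ (J : ℕ) (F : Fam m J), ∃ χ : α J F → PtT F, ∀ ω, ptr F J ω = χ (f J F ω))
    (hy : Kn ((range 0).image c) 1 1 y) {low up p₂ N : ℝ} {n : ℕ → ℝ} (hu : up ∈ G)
    (hbl : b ≤ low) (hlu : low ≤ up) (lo : ∀ i < r, sn i up + 2 * φ ≤ n i)
    (hi : ∀ i < r, n i + 8 * φ ≤ sn i up + (1 - up))
    (ne : ∀ i < r, ∀ l < i, n i - sn i up + 8 * φ ≤ n l - sn l up)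
    (h3 : N + φ ≤ min (sn r up) p₂ + (1 - up))
    (h3' : ∀ l < r, N + 2 * φ ≤ min (sn r up) p₂ + (n l - sn l up)) :
    Few S f (vg up) y ((qJets m c 0 r 0 (fun _ _ => up) (fun l _ => sn l up) (fun l _ => n l)).prod
      (qJet m ((range r).image c) (c r) 0 up (sn r up) N))
      (qJet m ((range r).image c) (c r) 0 low p₂ N) := by
  obtain ⟨C₀, htm⟩ := L.tm
  obtain ⟨u₁, rd, hrd, hch⟩ := L.ch.ch up hu
  have hφ := L.φ0
  have hup1 := hch.u0
  have hup0 : 0 ≤ up := L.b0.trans (hbl.trans hlu)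
  have hmin : min (1 : ℝ) (1 - up) = 1 - up := min_eq_right (by linarith)
  refine few_jetN htm hch (k := c r) (j := 0) (wv := fun _ _ => up) (pv := fun l _ => sn l up)
    (Nv := fun l _ => n l) (lv := fun l => n l - sn l up - φ) (w₁ := up) (w₂ := low)
    (p₁ := sn r up) (p₂ := p₂) (N₁ := N) (N₂ := N) (p₀ := 1) (lam := 1) (σ₀ := φ)
    (fun _ _ _ _ _ => le_rfl) le_rfl hlu hup1 le_rfl one_pos hφ ?_ ?_ ?_ ?_ le_rfl ?_ ?_ hf hy
  · intro i _ hir
    linarith [lo i hir]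
  · intro i _ hir j' hj'
    obtain rfl : j' = 0 := by omega
    push_cast
    linarith
  · intro i _ hir j' hj'
    rw [hmin, min_self]
    linarith [hi i hir]
  · intro i _ hir j' hj' l _ hl
    rw [min_self]
    linarith [ne i hir l hl]
  · rw [hmin]
    push_cast
    linarith
  · intro l _ hl
    push_cast
    linarith [h3' l hl]

/-- **The target over nothing.** -/
theorem few0_flat (L : Lad S c 0 sn G b o φ)
    (hf : ∀ (J : ℕ) (F : Fam m J), ∃ χ : α J F → PtT F, ∀ ω, ptr F J ω = χ (f J F ω))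
    (hy : Kn ((range 0).image c) 1 1 y) {w j oj pr N : ℝ} (hj : j ∈ G) (hwj : w ≤ j)
    (hjo : j ≤ oj) (hoj : oj ≤ 1) (hN : N < sn 0 j) :
    Few0 S f (vg oj) y (qJet m ((range 0).image c) (c 0) 0 w pr N) := by
  classical
  obtain ⟨rk, E, hrk, -, hE, -, hatt⟩ := L.att j hj
  intro h hh
  obtain ⟨e, he⟩ : ∃ e : ℝ, e = sn 0 j - N := ⟨_, rfl⟩
  have he0 : 0 < e := by rw [he]; linarith
  obtain ⟨Ka, hKa⟩ := hatt e he0
  obtain ⟨J₁, hJ₁⟩ := exists_nat_ge (Real.log 11 / h)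
  refine ⟨e, he0, fun K => Bas.mono J₁ (hKa.and (pos_bas L.pos)) ?_⟩
  rintro J hJ F A ⟨⟨V₁, z₁, z₁', G₁, hl₁⟩, hA⟩ u ⟨-, V, z, z', G', hl, hu⟩
  have hJ0 : (0 : ℝ) ≤ J := Nat.cast_nonneg J
  have hJ1 : (J₁ : ℝ) ≤ J := by exact_mod_cast hJ
  have f1 : Real.log 11 ≤ h * J := by
    have := hJ₁.trans hJ1
    rw [div_le_iff₀ hh] at this
    linarith
  have hq'l : IsLaw (Pool.Agent.H49.Ent.cond F.p A True) := isLaw_cond F.isLaw hA
  obtain ⟨φf, hφf⟩ := hf J F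
  obtain ⟨φw, hφw⟩ := vg_mono (hwj.trans hjo) hoj J F
  obtain ⟨φj, hφj⟩ := vg_mono hjo hoj J F
  obtain ⟨φy, hφy⟩ := hy J F
  refine ⟨V × V₁, fun ω => (z' (vg w J F ω), z₁' (vg j J F ω)), ⟨⟨fun x => (z (φf x),
    z₁ (φf x)), fun ω hω => ?_⟩, fun x => (z' (φw x), z₁' (φj x)), fun ω _ => ?_⟩, ?_⟩
  · show (z' (slam F ⌊w * J⌋₊ ω), z₁' (slam F ⌊j * J⌋₊ ω)) =
      (z (φf (f J F ω)), z₁ (φf (f J F ω)))
    rw [← hφf ω, hl.cls ω hω, hl₁.cls ω hω]
  · show (z' (vg w J F ω), z₁' (vg j J F ω)) = _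
    rw [hφw ω, hφj ω]
  refine le_trans (CH_pair (D := 5) hq'l u _ fun ω ω' hω hω' e1 => ?_) (le_trans (le_of_eq ?_) f1)
  swap
  · norm_num
  have hAω := of_cond_pos hω
  have hAω' := of_cond_pos hω'
  simp only [Prod.mk.injEq] at e1
  obtain ⟨⟨e2, e3⟩, e4⟩ := e1
  have hT : F.T ω = F.T ω' := by
    have h1 := hφy ω
    have h2 := hφy ω'
    rw [e4, h2] at h1
    exact (Prod.ext_iff.mp h1).1.symm
  have ht : bt F ω none = bt F ω' none := by
    show (F.T ω : ℝ) / 2 ^ J = (F.T ω' : ℝ) / 2 ^ J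
    rw [hT]
  have g1 : eval (bt F ω) (G' (z' (slam F ⌊w * J⌋₊ ω))) =
      eval (bt F ω') (G' (z' (slam F ⌊w * J⌋₊ ω'))) := by
    have : z' (slam F ⌊w * J⌋₊ ω) = z' (slam F ⌊w * J⌋₊ ω') := e2
    rw [this]
    exact hl.dep _ _ _ ht (fun i hi => by
      rw [Finset.range_zero, Finset.image_empty] at hi
      exact absurd hi (Finset.notMem_empty i))
  have g2 : eval (bt F ω) (G₁ (z₁' (slam F ⌊j * J⌋₊ ω))) =
      eval (bt F ω') (G₁ (z₁' (slam F ⌊j * J⌋₊ ω'))) := by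
    have : z₁' (slam F ⌊j * J⌋₊ ω) = z₁' (slam F ⌊j * J⌋₊ ω') := e3
    rw [this]
    exact hl₁.dep _ _ _ ht (fun i hi => by
      rw [Finset.range_zero, Finset.image_empty] at hi
      exact absurd hi (Finset.notMem_empty i))
  have p1 := hl₁.pos ω hAω
  have p2 := hl₁.pos ω' hAω'
  rw [hu ω hAω, hu ω' hAω', Pool.OWN54.ojet_zero, Pool.OWN54.ojet_zero]
  have hb : |F.x ω (c 0) - F.x ω' (c 0)| ≤ 2 * (1 / 2 ^ ⌊(sn 0 j - e) * J⌋₊) := by
    rw [g2] at p1
    rw [abs_le] at p1 p2 ⊢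
    constructor <;> linarith [p1.1, p1.2, p2.1, p2.2]
  have e5 : sn 0 j - e = N := by rw [he]; ring
  rw [e5] at hb
  have h5 : (2 : ℝ) ^ (N * J) * (1 / 2 ^ ⌊N * J⌋₊) ≤ 2 := by
    have h6 : N * J ≤ ⌊N * J⌋₊ + 1 := (Nat.lt_floor_add_one _).le
    have h7 : (2 : ℝ) ^ (N * J) ≤ 2 ^ ((⌊N * J⌋₊ : ℝ) + 1) :=
      Real.rpow_le_rpow_of_exponent_le (by norm_num) h6
    rw [Real.rpow_add (by norm_num), Real.rpow_natCast, Real.rpow_one] at h7
    rw [mul_one_div, div_le_iff₀ (by positivity)]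
    linarith
  have h8 : |(2 : ℝ) ^ (N * J) * (F.x ω (c 0) - eval (bt F ω) (G' (z' (slam F ⌊w * J⌋₊ ω)))) -
      2 ^ (N * J) * (F.x ω' (c 0) - eval (bt F ω') (G' (z' (slam F ⌊w * J⌋₊ ω'))))| ≤ 4 := by
    rw [g1, ← mul_sub, abs_mul, abs_of_pos (Real.rpow_pos_of_pos (by norm_num) _)]
    have e6 : F.x ω (c 0) - eval (bt F ω') (G' (z' (slam F ⌊w * J⌋₊ ω'))) -
        (F.x ω' (c 0) - eval (bt F ω') (G' (z' (slam F ⌊w * J⌋₊ ω')))) =
        F.x ω (c 0) - F.x ω' (c 0) := by ring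
    rw [e6]
    have h9 := mul_le_mul_of_nonneg_left hb
      (Real.rpow_pos_of_pos (show (0 : ℝ) < 2 by norm_num) (N * J)).le
    linarith
  obtain ⟨X, hX⟩ : ∃ X : ℝ, X = (2 : ℝ) ^ (N * J) *
    (F.x ω (c 0) - eval (bt F ω) (G' (z' (slam F ⌊w * J⌋₊ ω)))) := ⟨_, rfl⟩
  obtain ⟨X', hX'⟩ : ∃ X' : ℝ, X' = (2 : ℝ) ^ (N * J) *
    (F.x ω' (c 0) - eval (bt F ω') (G' (z' (slam F ⌊w * J⌋₊ ω')))) := ⟨_, rfl⟩
  rw [← hX, ← hX'] at h8 ⊢
  exact floor_sub_le (D := 4) (by push_cast; exact h8)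

end lad

/-- **(NUP)** -/
theorem t_nup : NupStmt := by
  intro m S c r sn G b o φ L α γ f y hf hy w j oj pr N p n hw hj hbw hwj hjo hjoj hoj1 hp hpr hn
    hlo hN hN'
  have hφ := L.φ0
  have hbj := hbw.trans hwj
  rcases Nat.eq_zero_or_pos r with hr | hr
  · subst hr
    have h1 := few0_flat (w := w) (j := j) (oj := oj) (pr := pr) (N := N) L hf hy hj hwj hjoj hoj1
      (by linarith)
    exact Few0.few L.pos h1
  -- the numbers
  have hfl : ∀ u ∈ G, b ≤ u → u ≤ j → ∀ i < r,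
      |(sn i u - u) - (sn i w - w)| ≤ 2 * φ ∧ |(sn i u - u) - (sn i j - j)| ≤ 2 * φ :=
    fun u hu h1 h2 i hi => ⟨L.flat hi hu hw h1 (h2.trans hjo) hbw (hwj.trans hjo),
      L.flat hi hu hj h1 (h2.trans hjo) hbj hjo⟩
  have lo' : ∀ u ∈ G, b ≤ u → u ≤ j → ∀ i < r, sn i u + 2 * φ ≤ n i := by
    intro u hu h1 h2 i hi
    have a := abs_le.1 (hfl u hu h1 h2 i hi).2
    linarith [hlo i hi, a.2]
  have hi' : ∀ u ∈ G, b ≤ u → u ≤ j → ∀ i < r, n i + 8 * φ ≤ sn i u + (1 - u) := by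
    intro u hu h1 h2 i hi
    have a := abs_le.1 (hfl u hu h1 h2 i hi).1
    linarith [hn.hi i hi, a.1]
  have ne' : ∀ u ∈ G, b ≤ u → u ≤ j → ∀ i < r, ∀ l < i,
      n i - sn i u + 8 * φ ≤ n l - sn l u := by
    intro u hu h1 h2 i hi l hl
    have a := abs_le.1 (hfl u hu h1 h2 i hi).1
    have a' := abs_le.1 (hfl u hu h1 h2 l (by omega)).1
    linarith [hn.ne i hi l hl, a.1, a.2, a'.1, a'.2]
  -- the windows
  have hj1 : j ≤ 1 := (hjo.trans_lt L.o1).le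
  obtain ⟨n', hn'⟩ := exists_nat_ge ((j - w) / φ)
  obtain ⟨N', bw, b0, bN, hbw', hs⟩ := gseq (h := 3 * φ) (ρ₀ := φ) hw (by linarith) n' j hj hwj (by
    rw [div_le_iff₀ hφ] at hn'
    linarith) (fun x h1 h2 => L.gap x (hbw.trans h1) (h2.trans hjo))
  have hup : ∀ v : ℝ, v ≤ j → ∀ (J : ℕ) (F : Fam m J), ∃ φ : LnT F → LnT F, ∀ ω,
      vg v J F ω = φ (vg j J F ω) := fun v hv J F => vg_mono hv hj1 J F
  have hpos : ∀ v ∈ G, b ≤ v → v ≤ j → Few S f (vg j) y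
      (qJets m c 0 r 0 (fun _ _ => b) (fun l _ => p l) (fun l _ => n l))
      (qJets m c 0 r 0 (fun _ _ => v) (fun l _ => sn l v) (fun l _ => n l)) := by
    intro v hv h1 h2
    exact Few.up (f' := f) (y' := y) L.pos (fun J F => ⟨fun x => x, fun _ => rfl⟩) (hup v h2)
      (fun J F => ⟨fun x => x, fun _ => rfl⟩) (L.pos_up hf hy hv h1 (h2.trans hjo) hp
        (fun u hu h3 h4 => lo' u hu h3 (h4.trans h2)) (fun u hu h3 h4 => hi' u hu h3 (h4.trans h2))
        (fun u hu h3 h4 => ne' u hu h3 (h4.trans h2)))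
  have htx : ∀ v ∈ G, Exs S (qJet m ((range r).image c) (c r) 0 v (sn r v) N) := by
    intro v hv
    obtain ⟨rk, E, hrk, -, hE, -, hat⟩ := L.att v hv
    exact exs_jetE hrk hE hat
  have hNw : N + 40 * φ ≤ sn r w + (1 - w) := by linarith [hN' 0 hr, hn.hi 0 hr]
  have hstw : ∀ v ∈ G, w ≤ v → v ≤ j → sn r w + (v - w) ≤ sn r v + φ := fun v hv h1 h2 =>
    L.st w hw v hv hbw h1 (h2.trans hjo)
  -- one step, any precision
  have hstep : ∀ up ∈ G, ∀ low p₂ : ℝ, w ≤ low → low ≤ up → up ≤ j → up ≤ low + 3 * φ →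
      sn r w + (low - w) - φ ≤ p₂ → Few S f (vg j) y
      (qJets m c 0 r 0 (fun _ _ => b) (fun l _ => p l) (fun l _ => n l))
      (qJet m ((range r).image c) (c r) 0 up (sn r up) N) → Few S f (vg j) y
      (qJets m c 0 r 0 (fun _ _ => b) (fun l _ => p l) (fun l _ => n l))
      (qJet m ((range r).image c) (c r) 0 low p₂ N) := by
    intro up hu low p₂ h1 h2 h3 h4 h5 h6
    have hbu : b ≤ up := hbw.trans (h1.trans h2)
    have hm : sn r w + (low - w) - φ ≤ min (sn r up) p₂ :=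
      le_min (by linarith [hstw up hu (h1.trans h2) h3]) h5
    have h7 := L.tgt_step hf hy (p₂ := p₂) (N := N) (n := n) hu (hbw.trans h1) h2
      (lo' up hu hbu h3) (hi' up hu hbu h3) (ne' up hu hbu h3) (by linarith) (fun l hl => by
        have a := abs_le.1 (hfl up hu hbu h3 l hl).1
        linarith [hN' l hl, a.2])
    exact Few.trans L.pos (Exs.prod (L.exs hu) (htx up hu)) (Few.pair L.pos (hpos up hu hbu h3) h6)
      (Few.up (f' := f) (y' := y) L.pos (fun J F => ⟨fun x => x, fun _ => rfl⟩) (hup up h3)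
        (fun J F => ⟨fun x => x, fun _ => rfl⟩) h7)
  have key : ∀ t ≤ N', Few S f (vg j) y
      (qJets m c 0 r 0 (fun _ _ => b) (fun l _ => p l) (fun l _ => n l))
      (qJet m ((range r).image c) (c r) 0 (bw t) (sn r (bw t)) N) := by
    intro t
    induction t with
    | zero =>
      intro _
      obtain ⟨C₀, htm⟩ := L.tm
      rw [b0]
      refine Few0.few L.pos (few0_jet htm (L.b0.trans hbj) (hjo.trans_lt L.o1) ?_ _ _ _)
      push_cast
      linarith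
    | succ t ih =>
      intro ht
      obtain ⟨q1, q2⟩ := hs t (by omega)
      obtain ⟨g1, g2, g3⟩ := hbw' t (by omega)
      obtain ⟨g4, g5, g6⟩ := hbw' (t + 1) ht
      exact hstep _ g1 _ _ g5 q1 g3 q2 (by linarith [hstw _ g4 g5 g6]) (ih (by omega))
  have h8 := key N' le_rfl
  rw [bN] at h8
  have h9 := hstep w hw w pr le_rfl le_rfl hwj (by linarith) (by linarith) h8
  exact Few.up (f' := f) (y' := y) L.pos (fun J F => ⟨fun x => x, fun _ => rfl⟩)
    (fun J F => vg_mono hjoj hoj1 J F) (fun J F => ⟨fun x => x, fun _ => rfl⟩) h9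

/-- **(NU0)** -/
theorem t_nu0 : Nu0Stmt := by
  intro m S c r sn G b o φ L α γ f y hf hy w x x' ox pr N hw hx hx' hbw hwx hxx hxo hox hox1 hx1
    hpr hN hN'
  obtain ⟨C₀, htm⟩ := L.tm
  have hφ := L.φ0
  have hr0 : (0 : ℝ) ≤ r := Nat.cast_nonneg r
  have hrφ : 0 ≤ (r : ℝ) * φ := by positivity
  have hwx' : w ≤ x' := by nlinarith
  have hxo' : x ≤ o := by nlinarith
  have hwo : w ≤ o := hwx.trans hxo'
  have hxox : x ≤ ox := by nlinarith
  obtain ⟨n, hn⟩ : ∃ n : ℕ → ℝ, n = fun i => sn i x' - ((i : ℝ) + 1) * (26 * φ) := ⟨_, rfl⟩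
  have hni : ∀ i, n i = sn i x' - ((i : ℝ) + 1) * (26 * φ) := fun i => by rw [hn]
  have hir : ∀ i < r, ((i : ℝ) + 1) * (26 * φ) ≤ r * (26 * φ) := fun i hi => by
    have : (i : ℝ) + 1 ≤ r := by exact_mod_cast hi
    exact mul_le_mul_of_nonneg_right this (by positivity)
  have hi0 : ∀ i : ℕ, 26 * φ ≤ ((i : ℝ) + 1) * (26 * φ) := fun i => by
    have : (0 : ℝ) ≤ i * (26 * φ) := by positivity
    linarith
  have hfl : ∀ i < r, |(sn i x' - x') - (sn i w - w)| ≤ 2 * φ := fun i hi =>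
    L.flat hi hx' hw (hbw.trans hwx') hxo hbw hwo
  have hflx : ∀ i < r, |(sn i x' - x') - (sn i x - x)| ≤ 2 * φ := fun i hi =>
    L.flat hi hx' hx (hbw.trans hwx') hxo (hbw.trans hwx) hxo'
  have L' := L.cut hw hbw hwo
  have h1 := t_nup L' hf hy (w := w) (j := x) (oj := ox) (pr := pr) (N := N)
    (p := fun i => sn i w) (n := n) hw hx le_rfl hwx hxo' hxox hox1 (fun _ _ => by linarith) hpr
    ⟨fun i hi => by
      have a := abs_le.1 (hfl i hi)
      rw [hni]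
      linarith [hir i hi, a.1], fun i hi => by
      have a := abs_le.1 (hfl i hi)
      rw [hni]
      linarith [hi0 i, a.2], fun i hi l hl => by
      have a := abs_le.1 (hfl i hi)
      have a' := abs_le.1 (hfl l (by omega))
      rw [hni, hni]
      have e1 : ((l : ℝ) + 1) * (26 * φ) + 26 * φ ≤ ((i : ℝ) + 1) * (26 * φ) := by
        have : (l : ℝ) + 1 ≤ i := by exact_mod_cast hl
        have := mul_le_mul_of_nonneg_right this (show 0 ≤ 26 * φ by positivity)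
        linarith
      linarith [a.1, a.2, a'.1, a'.2]⟩ (fun i hi => by
      have a := abs_le.1 (hflx i hi)
      rw [hni]
      linarith [hir i hi, a.1]) (by linarith) (fun i hi => by
      have a := abs_le.1 (hfl i hi)
      rw [hni]
      linarith [hir i hi, a.1])
  have h0 : Few0 S f (vg ox) y (qJets m c 0 r 0 (fun _ _ => w) (fun l _ => sn l w)
      (fun l _ => n l)) := by
    refine few_tQt L.pos (few_qjets L.pos fun l _ hl j' hj' => ?_)
    obtain rfl : j' = 0 := by omega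
    refine Few0.few L.pos (hts0G htm L.pos L.ch hf hy (w := w) (o := x') (ow := ox) (φ := 2 * φ)
      (ρ₀ := φ) (κ := φ) hw hx' hwx' hox hox1 (by positivity) hφ.le hφ
      (fun z h1 h2 => L.gap z (hbw.trans h1) (h2.trans hxo))
      (fun i hi v hv h1 h2 => L.flat hi hv hx' (hbw.trans h1) (h2.trans hxo)
        (hbw.trans hwx') hxo) hl ?_)
    rw [hni]
    have : (0 : ℝ) ≤ ((l : ℝ) + 1) * φ := by positivity
    linarith
  exact Few0.trans L.pos (L'.exs hw) h0 h1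

end Pool.V0F
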