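import Pool.Agent.H44.V0F.S
import Pool.Agent.H3.V0F.Ag

/-!
# The heights of the target exist
-/

set_option autoImplicit false

namespace Pool.V0F

open Finset Real MvPolynomial
open Pool.Agent.H49.Ent Pool.Agent.H32.Dense Pool.STK Pool.KA Pool.KSAT Pool.K2S Pool.PB Pool.GEN
open Pool.S6C Pool.RCD Pool.LA91 Pool.AVG96

variable {m : ℕ} {S : PCl m} {c : ℕ → Fin m} {r : ℕ} {sn : ℕ → ℝ → ℝ} {G : Set ℝ} {b o φ : ℝ}

/-- The heights of the target over its own labels. -/
theorem lad_exs (L : Lad S c r sn G b o φ) {w : ℝ} (hw : w ∈ G) (j : ℕ) (N : ℝ) :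
    Exs S (qJet m ((range r).image c) (c r) j w (sn r w) N) := by
  obtain ⟨rk, E, hrk, -, hE, -, hatt⟩ := L.att w hw
  exact exs_jetE hrk hE hatt

/-- The heights of a place of the chain or of the target over its own labels. -/
theorem lad_exs' (L : Lad S c r sn G b o φ) {w : ℝ} (hw : w ∈ G) {i : ℕ} (hi : i ≤ r) (j : ℕ)
    (N : ℝ) : Exs S (qJet m ((range i).image c) (c i) j w (sn i w) N) := by
  rcases Nat.lt_or_ge i r with h | h
  · obtain ⟨u₁, rd, hrd, hch⟩ := L.ch.ch w hw
    exact exs_jet (hrd i h) (hch.att i (Nat.zero_le i) h)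
  · obtain rfl : i = r := by omega
    exact lad_exs L hw j N

end Pool.V0F
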