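import Pool.Agent.H71.V0F.Vuj
import Pool.Agent.H71.V0F.Lex
import Pool.Agent.H71.AJX.Pfx
import Pool.Agent.H92.V0F.Lbf

/-!
# The codes of order `≥ 1` of the target

`dj_p`: the codes of order `≥ 1` of the own path of the target over charts of the window `w`, from the
record at `w` and from positions and velocities of the chain over the (rough) charts of the base
window `b`; `v < w`: an earlier window, where labels of degree `K` are given.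
-/

set_option autoImplicit false

namespace Pool.V0F

open Finset Real MvPolynomial
open Pool.Agent.H49.Ent Pool.Agent.H32.Dense Pool.STK Pool.KA Pool.KSAT Pool.K2S Pool.PB Pool.GEN
open Pool.S6C Pool.RCD Pool.LA91 Pool.AVG96
open Pool.OWN68 (RawN F1)
open Pool.AVG71 (cod)
open Pool.GRD (LbP)
open Pool.AJW (FwL ctx CfB)
open Pool.AJX (JetX LbX FwX)

/-- The empty base. -/
theorem kn_zero {m : ℕ} {c : ℕ → Fin m} {p₀ lam p₁ lam₁ : ℝ} {γ : ∀ J : ℕ, Fam m J → Type}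
    {y : ∀ (J : ℕ) (F : Fam m J), F.Ω → γ J F} (hy : Kn ((range 0).image c) p₀ lam y) :
    Kn ((range 0).image c) p₁ lam₁ y := by
  intro J F
  obtain ⟨φ, hφ⟩ := hy J F
  refine ⟨fun x => ((φ x).1, (fun _ => 0), (fun _ => 0)), fun ω => ?_⟩
  have h1 : ∀ i : Fin m, i ∉ (range 0).image c := fun i => by simp
  simp only [hφ, if_neg (h1 _)]

variable {m : ℕ} {S : PCl m} {c : ℕ → Fin m} {r : ℕ} {sn : ℕ → ℝ → ℝ} {G : Set ℝ} {b o φ : ℝ}

/-- **The numbers of (DJ).** `n'`: the digits at `v`. -/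
theorem dj_num (L : Lad S c r sn G b o φ) {K : ℕ} {v w g₀ : ℝ} {n E rd : ℕ → ℝ} (hv : v ∈ G)
    (hw : w ∈ G) (hbv : b ≤ v) (hvw : v < w) (hwo : w ≤ o) (hg₀ : 0 < g₀) (hs0 : 0 ≤ sn r v)
    (hs1 : sn r w + E r + g₀ ≤ 1) (hE : ∀ i ≤ r, 0 ≤ E i ∧ E i ≤ 1)
    (hrd : ∀ i ≤ r, 0 ≤ rd i ∧ rd i + g₀ ≤ 1) (hn1 : ∀ i < r, n i + E i + g₀ ≤ 1)
    (hn : Nst r sn w φ n)
    (h1 : ∀ i < r, (sn r w - sn r v) + ((K : ℝ) + 2 * r + 8) * (w - v) +
      60 * ((r : ℝ) + 2) * φ ≤ n i - sn i w)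
    (h0 : (sn r w - sn r v) + ((K : ℝ) + 2 * r + 8) * (w - v) + 60 * ((r : ℝ) + 2) * φ ≤ 1 - w)
    (hΔ : φ < sn r w - sn r v) :
    ∃ lv : ℕ → ℝ, JetX S c 0 r v w (1 - v - φ) (sn r w - sn r v - φ) φ g₀ E
      (fun l => sn l v) (fun l => sn l w) (fun l => sn l v + (n l - sn l w) - 2 * φ) lv rd K := by
  have hφ := L.φ0
  have hr0 : (0 : ℝ) ≤ r := Nat.cast_nonneg r
  have hK0 : (0 : ℝ) ≤ K := Nat.cast_nonneg K
  have hwv : 0 < w - v := by linarith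
  obtain ⟨u₁, rw, -, hch⟩ := L.ch.ch w hw
  obtain ⟨u₂, rv, -, hcv⟩ := L.ch.ch v hv
  have hv0 : 0 ≤ v := hcv.w0
  have d2 : ∀ i < r, sn i w - sn i v ≤ w - v + 2 * φ := fun i hi =>
    L.dif hi hv hw hbv (by linarith) (by linarith) hwo
  have d3 : ∀ i < r, w - v - 2 * φ ≤ sn i w - sn i v := fun i hi => by
    have := L.dif hi hw hv (by linarith) hwo hbv (by linarith)
    linarith
  obtain ⟨a, ha⟩ : ∃ a : ℝ, a = (w - v) + 3 * φ := ⟨_, rfl⟩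
  have ha0 : 0 < a := by rw [ha]; linarith
  obtain ⟨B, hB⟩ : ∃ B : ℝ, B = (sn r w - sn r v - φ) + ((K : ℝ) + 2) * (w - v) + φ := ⟨_, rfl⟩
  have hB0 : 0 < B := by
    rw [hB]
    have : 0 ≤ ((K : ℝ) + 2) * (w - v) := by positivity
    linarith
  obtain ⟨lv, hlv⟩ : ∃ lv : ℕ → ℝ, lv = fun i : ℕ => B + ((r : ℝ) - i) * a := ⟨_, rfl⟩
  have hlv0 : ∀ i < r, B ≤ lv i ∧ lv i ≤ B + r * a := fun i hi => by
    have h2 : (i : ℝ) ≤ r := by exact_mod_cast hi.le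
    have h3 : (0 : ℝ) ≤ i := Nat.cast_nonneg i
    rw [hlv]
    constructor <;> dsimp only <;> nlinarith
  have hra : B + r * a + 4 * (w - v) + 20 * φ ≤
      (sn r w - sn r v) + ((K : ℝ) + 2 * r + 8) * (w - v) + 60 * ((r : ℝ) + 2) * φ := by
    rw [hB, ha]
    have e1 : 0 ≤ (r : ℝ) * (w - v) := by positivity
    have e2 : 0 ≤ (r : ℝ) * φ := by positivity
    nlinarith
  have hmn : ∀ i < r, sn i w - (w - v) - 2 * φ ≤ min (sn i v) (sn i w) := fun i hi =>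
    le_min (by linarith [d2 i hi]) (by linarith)
  refine ⟨lv, ?_⟩
  constructor
  · exact Nat.zero_le r
  · exact hv0
  · exact hvw.le
  · exact hφ
  · exact hg₀
  · linarith
  · linarith
  · exact hs0
  · exact fun i _ hi => hE i hi
  · show sn r v + (sn r w - sn r v - φ) + E r + g₀ ≤ 1
    linarith
  · exact ⟨u₁, rw, hch⟩
  · exact fun N => lad_exs L hw 0 N
  · exact fun i _ hi => hrd i hi
  · intro i _ hi
    show sn i v + (n i - sn i w) - 2 * φ + E i + g₀ ≤ 1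
    linarith [d3 i hi, hn1 i hi]
  · show sn r v + (sn r w - sn r v - φ) + φ ≤ sn r w
    linarith
  · intro i _ hi
    linarith [(hlv0 i hi).1]
  · intro i _ hi
    show sn i w + lv i + φ ≤ sn i v + (n i - sn i w) - 2 * φ
    linarith [(hlv0 i hi).2, h1 i hi, d2 i hi]
  · intro i _ hi l _ hl
    show sn i w + lv i + φ ≤ min (sn i v) (sn i w) + lv l
    have e1 : lv i + a ≤ lv l := by
      rw [hlv]
      dsimp only
      have : (l : ℝ) + 1 ≤ i := by exact_mod_cast hl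
      nlinarith
    rw [ha] at e1
    linarith [hmn i hi]
  · intro i _ hi
    show sn i w + lv i + φ ≤ min (sn i v) (sn i w) + (v + (1 - v - φ) - w)
    linarith [hmn i hi, (hlv0 i hi).2]
  · intro l _ hl
    have := (hlv0 l hl).1
    rw [hB] at this
    linarith
  · have e1 : 0 ≤ (r : ℝ) * a := by positivity
    rw [hB] at hra
    linarith

/-- **(DJ)** The codes of order `≥ 1` of the own path of the target over charts of the window `w`. -/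
theorem dj_p (K : ℕ) {h : ℝ} (hh : 0 < h) (hh1 : h ≤ 1) {ε : ℝ} (hε : 0 < ε) (r : ℕ) :
    ∃ δ : ℝ, 0 < δ ∧
    ∀ {m : ℕ} {S : PCl m} {c : ℕ → Fin m} {sn : ℕ → ℝ → ℝ} {G : Set ℝ} {b o φ : ℝ},
    Lad S c r sn G b o φ → ∀ {α γ : ∀ J : ℕ, Fam m J → Type}
    {f : ∀ (J : ℕ) (F : Fam m J), F.Ω → α J F} {y : ∀ (J : ℕ) (F : Fam m J), F.Ω → γ J F},
    (∀ (J : ℕ) (F : Fam m J), ∃ χ : α J F → PtT F, ∀ ω, ptr F J ω = χ (f J F ω)) →
    Kn ((range 0).image c) 1 1 y → ∀ {v w ow N g₀ : ℝ} {p n E rd : ℕ → ℝ}, v ∈ G → w ∈ G →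
    b ≤ v → v < w → w ≤ o → w ≤ ow → ow ≤ 1 → 0 < g₀ → 0 ≤ sn r v → sn r w + E r + g₀ ≤ 1 →
    (∀ i ≤ r, 0 ≤ E i ∧ E i ≤ 1) → (∀ i ≤ r, 0 ≤ rd i ∧ rd i + g₀ ≤ 1) →
    (∀ i < r, n i + E i + g₀ ≤ 1) → (∀ i < r, sn i b - φ ≤ p i) → Nst r sn w φ n →
    (∀ i < r, (sn r w - sn r v) + ((K : ℝ) + 2 * r + 8) * (w - v) + 60 * ((r : ℝ) + 2) * φ ≤
      n i - sn i w) →
    (sn r w - sn r v) + ((K : ℝ) + 2 * r + 8) * (w - v) + 60 * ((r : ℝ) + 2) * φ ≤ 1 - w →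
    (∀ i < r, n i - sn i w + 60 * φ ≤ v - b) → 60 * ((r : ℝ) + 2) * φ ≤ δ * (w - v) →
    (∀ q' : ℝ, 0 ≤ q' → q' ≤ sn r w - sn r v →
      RawN S ((range r).image c) (c r) (sn r v) q' h (δ * (sn r w - sn r v))) →
    (∀ e : ℝ, 0 < e → Bas S (fun J F A => ∃ (V : Type) (z : PtT F → V) (z' : LnT F → V)
      (g : V → ℕ → MvPolynomial (Option (Fin m)) ℝ),
      LbE F c (r + 1) K E e v rd (fun l => sn l v) A z z' g)) →
    N + 60 * φ ≤ sn r w + (w - v) →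
    ∃ e₀ : ℝ, 0 < e₀ ∧ ∀ e : ℝ, 0 < e → e ≤ e₀ → ∀ (K₀ K' : ℕ) (P₂ Ec : ℝ),
      K' ≤ K → sn r v ≤ P₂ →
      Bas S (fun J F A => ∀ u₀ : F.Ω → ℕ → ℕ → ℤ,
        (jetQ m c 0 r b p (fun l j' => n l - (j' : ℝ) * w)).P K₀ e J F A u₀ →
        ∀ (V : Type) (z : PtT F → V) (z' : LnT F → V)
        (G' : V → MvPolynomial (Option (Fin m)) ℝ), LbP F ((range r).image c) (c r) K'
          J ⌊w * J⌋₊ ⌊(P₂ - e) * J⌋₊ A z z' G' → CfB F ⌊w * J⌋₊ Ec (c r) A z' G' →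
        ∃ (V₁ : Type) (z₁ : F.Ω → V₁), Cl2 (f J F) (vg ow J F) A z₁ ∧
          ∀ s : ℝ, 0 < s → s ≤ 2 ^ (N * J) →
          CH (Pool.Agent.H49.Ent.cond F.p A True)
            (cod F ⌊w * J⌋₊ 1 (K' + 1) s (c r) z' G')
            (fun ω => (u₀ ω, (z₁ ω, y J F ω))) ≤ ε * (sn r w - sn r v) * J) := by
  obtain ⟨δ₁, hδ₁, H⟩ := Pool.AJX.d_cls_p K hh hh1 hε
  refine ⟨min (δ₁ / 4) 1, lt_min (by positivity) one_pos, ?_⟩
  intro m S c sn G b o φ L α γ f y hf hy v w ow N g₀ p n E rd hv hw hbv hvw hwo how how1 hg₀ hs0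
    hs1 hE hrd hn1 hp hn h1 h0 h2 h3 hraw hlb hN
  obtain ⟨C₀, htm⟩ := L.tm
  have hφ := L.φ0
  have hr0 : (0 : ℝ) ≤ r := Nat.cast_nonneg r
  have hwv : 0 < w - v := by linarith
  have hst := L.st v hv w hw hbv hvw.le hwo
  have hδ4 : min (δ₁ / 4) 1 ≤ δ₁ / 4 := min_le_left _ _
  have hδ1 : min (δ₁ / 4) 1 ≤ 1 := min_le_right _ _
  have hrφ : 0 ≤ (r : ℝ) * φ := by positivity
  have k1 : 120 * φ ≤ w - v := by
    have := mul_le_mul_of_nonneg_right hδ1 hwv.le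
    nlinarith
  obtain ⟨q, hq⟩ : ∃ q : ℝ, q = sn r w - sn r v - φ := ⟨_, rfl⟩
  have hq1 : (w - v) / 2 ≤ q := by rw [hq]; linarith
  have hq0 : 0 < q := by linarith
  have hφq : φ ≤ q := by linarith
  have k2 : (r + 1) * φ ≤ δ₁ * q := by
    have e1 : 60 * ((r : ℝ) + 2) * φ ≤ δ₁ / 4 * (w - v) :=
      h3.trans (mul_le_mul_of_nonneg_right hδ4 hwv.le)
    have e2 : δ₁ * ((w - v) / 2) ≤ δ₁ * q := mul_le_mul_of_nonneg_left hq1 hδ₁.le
    have e3 : 0 ≤ δ₁ * (w - v) := by positivity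
    nlinarith
  obtain ⟨lv, HJ⟩ := dj_num L (K := K) hv hw hbv hvw hwo hg₀ hs0 hs1 hE hrd hn1 hn h1 h0
    (by rw [hq] at hq0; linarith)
  rw [← hq] at HJ
  have d2 : ∀ i < r, sn i w - sn i v ≤ w - v + 2 * φ := fun i hi =>
    L.dif hi hv hw hbv (by linarith) (by linarith) hwo
  have d3 : ∀ i < r, w - v - 2 * φ ≤ sn i w - sn i v := fun i hi => by
    have := L.dif hi hw hv (by linarith) hwo hbv (by linarith)
    linarith
  have k3 : ∀ i < r, 100 * φ ≤ n i - sn i w := fun i hi => by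
    have e1 := h1 i hi
    have e2 : 0 ≤ ((K : ℝ) + 2 * r + 8) * (w - v) := by positivity
    nlinarith
  have hn' : Nst r sn v φ (fun l => sn l v + (n l - sn l w) - 2 * φ) := by
    refine ⟨fun i hi => ?_, fun i hi => ?_, fun i hi l hl => ?_⟩
    · show sn i v + 20 * φ ≤ sn i v + (n i - sn i w) - 2 * φ
      linarith [k3 i hi]
    · show sn i v + (n i - sn i w) - 2 * φ + 20 * φ ≤ sn i v + (1 - v)
      linarith [hn.hi i hi]
    · show sn i v + (n i - sn i w) - 2 * φ - sn i v + 20 * φ ≤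
        sn l v + (n l - sn l w) - 2 * φ - sn l v
      linarith [hn.ne i hi l hl]
  have hlam : 0 ≤ 1 - v - φ := by
    have e1 : 0 ≤ ((K : ℝ) + 2 * r + 8) * (w - v) := by positivity
    have e2 : 0 ≤ (r : ℝ) * φ := by positivity
    nlinarith [h0]
  obtain ⟨e₁, he₁, hctx⟩ := vuj_ctx (f := f) (y := y) (E := E) (rd := rd) L hf hy
    (fun i hi => (hE i hi.le).2) hv hbv (by linarith) (hvw.le.trans how) how1 hn' hp
    (fun i hi => by
      show sn i v + (n i - sn i w) - 2 * φ - sn i v + 3 * φ ≤ v - b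
      linarith [h2 i hi])
    (Nf := fun l j' => n l - (j' : ℝ) * w)
    (fun i hi j hj => by
      show sn i v + (n i - sn i w) - 2 * φ - (j : ℝ) * v ≤ n i - (j : ℝ) * w
      have e1 : (j : ℝ) ≤ 1 := by exact_mod_cast hj
      have e2 : (j : ℝ) * (w - v) ≤ 1 * (w - v) := mul_le_mul_of_nonneg_right e1 hwv.le
      linarith [d3 i hi])
    (kn_zero (p₁ := v + (1 - v - φ)) (lam₁ := 1 - v - φ) hy) hlam
    (fun i hi => (hrd i hi.le).1) K (r + 1) (Nat.le_succ r) (show 0 < δ₁ * q by positivity)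
  obtain ⟨e₀, he₀, -, HP⟩ := H htm HJ k2
    (Qu := jetQ m c 0 r b p (fun l j' => n l - (j' : ℝ) * w)) hf
    (kn_zero (p₁ := v + (1 - v - φ)) (lam₁ := 1 - v - φ) hy) how how1 he₁ hctx
    (fun q' a1 a2 => (hraw q' a1 (by linarith)).mono (by
      have e1 : sn r w - sn r v = q + φ := by rw [hq]; ring
      rw [e1]
      have e2 : min (δ₁ / 4) 1 * (q + φ) ≤ δ₁ / 4 * (q + φ) :=
        mul_le_mul_of_nonneg_right hδ4 (by linarith)
      have e3 : δ₁ * φ ≤ δ₁ * q := mul_le_mul_of_nonneg_left hφq hδ₁.le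
      nlinarith))
    (fun e he => Bas.mono 0 (hlb e he) fun J _ F A ⟨V, z, z', g, hl⟩ =>
      ⟨V, z, z', g, fun i _ hi => hl i hi⟩)
    (N := N) (by
      show N ≤ sn r v + q + (w - v)
      rw [hq]
      linarith)
  refine ⟨e₀, he₀, fun e he hle K₀ K' P₂ Ec hK' hP₂ => ?_⟩
  refine Bas.mono 0 (HP e he hle K₀ K' P₂ Ec hK' hP₂) ?_
  intro J _ F A h4 u₀ hu₀ V z z' G' hl hcf
  obtain ⟨V₁, z₁, hz₁, h5⟩ := h4 u₀ hu₀ V z z' G' hl hcf
  refine ⟨V₁, z₁, hz₁, fun s hs0 hs => (h5 s hs0 hs).trans ?_⟩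
  refine mul_le_mul_of_nonneg_right (mul_le_mul_of_nonneg_left ?_ hε.le) (Nat.cast_nonneg J)
  rw [hq]
  linarith

end Pool.V0F
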