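import Pool.Agent.H3.V0F.Vup
import Pool.Agent.H71.AJX.Nsx

/-!
# All jets over the charts of a later window

`vuj_jet`: the jets of all orders of the chain over the charts of a window `w`, from the positions and
velocities over the (rough) charts of the base window `b`, if the orders `≥ 2` are natural at `b`.
`vuj_ctx`: the context.
-/

set_option autoImplicit false

namespace Pool.V0F

open Finset Real MvPolynomial
open Pool.Agent.H49.Ent Pool.Agent.H32.Dense Pool.STK Pool.KA Pool.KSAT Pool.K2S Pool.PB Pool.GEN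
open Pool.S6C Pool.RCD Pool.LA91 Pool.AVG96
open Pool.OWN68 (F1 F0 few0_room few0_iff few_iff F1.mono)
open Pool.AJW (ctx)
open Pool.AJX (FwX ctxK_few)

variable {m : ℕ} {S : PCl m} {c : ℕ → Fin m} {r : ℕ} {sn : ℕ → ℝ → ℝ} {G : Set ℝ} {b o φ : ℝ}

variable {α γ : ∀ J : ℕ, Fam m J → Type}
  {f : ∀ (J : ℕ) (F : Fam m J), F.Ω → α J F} {y : ∀ (J : ℕ) (F : Fam m J), F.Ω → γ J F}

/-- **One step** to a later window, for a jet which is not natural there. -/
theorem vuj_one (L : Lad S c r sn G b o φ)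
    (hf : ∀ (J : ℕ) (F : Fam m J), ∃ χ : α J F → PtT F, ∀ ω, ptr F J ω = χ (f J F ω))
    (hy : Kn ((range 0).image c) 1 1 y) {w : ℝ} {n : ℕ → ℝ} (hw : w ∈ G) (hwo : w ≤ o)
    (hn : Nst r sn w φ n) {v v' : ℝ} (hv : v ∈ G) (hv' : v' ∈ G) (hbv : b ≤ v) (hvv : v ≤ v')
    (hv3 : v' ≤ v + 3 * φ) (hvw : v' ≤ w) {p : ℕ → ℝ} (hp : ∀ i < r, sn i v - φ ≤ p i)
    {Jm : ℕ} {Nf : ℕ → ℕ → ℝ} (hNf : ∀ i < r, ∀ j : ℕ, j ≤ Jm → n i - (j : ℝ) * w ≤ Nf i j) {i : ℕ}
    (hi : i < r) {j : ℕ} (hj : j ≤ Jm)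
    (hB : ((j : ℝ) - 1) * (w - v') < n i - sn i w + 3 * φ) :
    Few S f (vg v') y (qJets m c 0 r Jm (fun _ _ => v) (fun l _ => p l) Nf)
      (qJet m ((range i).image c) (c i) j v' (sn i v') (n i - (j : ℝ) * w)) := by
  obtain ⟨C₀, htm⟩ := L.tm
  obtain ⟨u₁, rd, hrd, hch⟩ := L.ch.ch v' hv'
  have hφ := L.φ0
  have hv1 : v' < 1 := hch.u0
  have hv0 : 0 ≤ v' := hch.w0
  have hmin : min (1 : ℝ) (1 - v') = 1 - v' := min_eq_right (by linarith)
  -- the levels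
  have d1 : ∀ i < r, sn i v' - φ - 5 * φ ≤ p i := fun i hi => by
    have k1 := L.dif hi hv hv' hbv (by linarith) (by linarith) (by linarith)
    have k2 := hp i hi
    linarith
  have d2 : ∀ i < r, sn i w - sn i v' ≤ w - v' + 2 * φ := fun i hi =>
    L.dif hi hv' hw (by linarith) (by linarith) (by linarith) hwo
  have d3 : ∀ i < r, w - v' - 2 * φ ≤ sn i w - sn i v' := fun i hi => by
    have := L.dif hi hw hv' (by linarith) hwo (by linarith) (by linarith)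
    linarith
  have e1 := d1 i hi
  have e2 := d2 i hi
  have e3 := d3 i hi
  have e4 := hn.hi i hi
  have hmn : sn i v' - 6 * φ ≤ min (p i) (sn i v') := le_min (by linarith) (by linarith)
  obtain ⟨X, hX⟩ : ∃ X : ℝ, X = (j : ℝ) * (w - v') := ⟨_, rfl⟩
  have hj0 : (0 : ℝ) ≤ j := Nat.cast_nonneg _
  have hX0 : 0 ≤ X := by
    rw [hX]
    exact mul_nonneg hj0 (by linarith)
  have hX1 : X < n i - sn i w + 3 * φ + (w - v') := by
    have : ((j : ℝ) - 1) * (w - v') = X - (w - v') := by rw [hX]; ring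
    linarith
  have eX : n i - (j : ℝ) * w + (j : ℝ) * v' = n i - X := by rw [hX]; ring
  obtain ⟨lv, hlv⟩ : ∃ lv : ℕ → ℝ, lv = fun l => n l - X - sn l v' - φ := ⟨_, rfl⟩
  have key := few_jetN (f := f) (y := y) htm (hch.take (Nat.zero_le i) hi.le) (k := c i)
    (j := j) (wv := fun _ _ => v) (pv := fun l _ => p l)
    (Nv := Nf)
    (lv := lv) (w₁ := v) (w₂ := v') (p₁ := p i) (p₂ := sn i v')
    (N₁ := Nf i j) (N₂ := n i - (j : ℝ) * w) (p₀ := 1) (lam := 1) (σ₀ := φ)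
    (fun _ _ _ _ _ => hvv) hvv le_rfl hv1 le_rfl one_pos hφ (by
      intro l _ hl
      have k1 := hn.ne i hi l hl
      have k2 := d3 l (by omega)
      rw [hlv]
      show 0 < n l - X - sn l v' - φ
      linarith) (by
      intro l _ hl j'' hj''
      rw [hlv]
      show sn l v' + (n l - X - sn l v' - φ) + φ ≤ Nf l j'' + (j'' : ℝ) * v'
      have k1 : (j'' : ℝ) ≤ j := by exact_mod_cast hj''
      have k2 := hNf l (by omega) j'' (by omega)
      have k3 : (j'' : ℝ) * (w - v') ≤ j * (w - v') :=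
        mul_le_mul_of_nonneg_right k1 (by linarith)
      have k4 : (j'' : ℝ) * (w - v') = j'' * w - j'' * v' := by ring
      rw [← hX] at k3
      linarith) (by
      intro l _ hl j'' hj''
      have k1 := hn.hi l (by omega)
      have k2 := d1 l (by omega)
      have k3 := d2 l (by omega)
      rw [hlv, hmin]
      show sn l v' + (n l - X - sn l v' - φ) + φ ≤
        min (p l) (sn l v') + (1 - v')
      have k4 : sn l v' - 6 * φ ≤ min (p l) (sn l v') := le_min (by linarith) (by linarith)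
      linarith) (by
      intro l _ hl j'' hj'' l' _ hl'
      have k1 := hn.ne l (by omega) l' hl'
      have k2 := d1 l (by omega)
      have k3 := d3 l (by omega)
      have k5 := d2 l' (by omega)
      have k6 := d2 l (by omega)
      have k7 := d3 l' (by omega)
      rw [hlv]
      show sn l v' + (n l - X - sn l v' - φ) + φ ≤
        min (p l) (sn l v') + (n l' - X - sn l' v' - φ)
      have k4 : sn l v' - 6 * φ ≤ min (p l) (sn l v') := le_min (by linarith) (by linarith)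
      linarith) (hNf i hi j hj) (by
      rw [hmin, eX]
      linarith) (by
      intro l _ hl
      have k1 := hn.ne i hi l hl
      have k3 := d3 l (by omega)
      have k5 := d2 l (by omega)
      rw [hlv, eX]
      show n i - X + φ ≤ min (p i) (sn i v') + (n l - X - sn l v' - φ)
      linarith) hf hy
  refine Few.pre L.pos (fun u : ℕ → ℕ → ℤ => ((fun l j'' => if 0 ≤ l ∧ l < i ∧ j'' ≤ j then
    u l j'' else 0), u i j)) ?_ key
  intro K e J F A u hu
  exact ⟨qJets_take hi.le hj hu, hu.1 i (Nat.zero_le _) hi j hj⟩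

/-- **A natural jet.** -/
theorem vuj_nat (L : Lad S c r sn G b o φ) {w : ℝ} {n : ℕ → ℝ} (hw : w ∈ G) (hwo : w ≤ o)
    {v' : ℝ} (hv' : v' ∈ G) (hbv : b ≤ v') (hvw : v' ≤ w) {i : ℕ} (hi : i < r) {j : ℕ}
    (hA : n i - sn i w + 3 * φ ≤ ((j : ℝ) - 1) * (w - v')) {U : Type} (Q : Qt m U) :
    Few S f (vg v') y Q
      (qJet m ((range i).image c) (c i) j v' (sn i v') (n i - (j : ℝ) * w)) := by
  obtain ⟨C₀, htm⟩ := L.tm
  obtain ⟨u₁, rd, hrd, hch⟩ := L.ch.ch v' hv'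
  have hφ := L.φ0
  have d2 : sn i w - sn i v' ≤ w - v' + 2 * φ :=
    L.dif hi hv' hw (by linarith) (by linarith) (by linarith) hwo
  refine Few0.few L.pos (few0_iff.2 fun h hh => ⟨φ / 4, by linarith,
    few0_room htm hch.w0 hch.u0 hφ ?_ _ _ _ hh⟩)
  have e1 : ((j : ℝ) - 1) * (w - v') = j * w - j * v' - (w - v') := by ring
  linarith

/-- **One jet** at a later window. -/
theorem vuj_any (L : Lad S c r sn G b o φ)
    (hf : ∀ (J : ℕ) (F : Fam m J), ∃ χ : α J F → PtT F, ∀ ω, ptr F J ω = χ (f J F ω))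
    (hy : Kn ((range 0).image c) 1 1 y) {w : ℝ} {n : ℕ → ℝ} (hw : w ∈ G) (hwo : w ≤ o)
    (hn : Nst r sn w φ n) {v v' : ℝ} (hv : v ∈ G) (hv' : v' ∈ G) (hbv : b ≤ v) (hvv : v ≤ v')
    (hv3 : v' ≤ v + 3 * φ) (hvw : v' ≤ w) {p : ℕ → ℝ} (hp : ∀ i < r, sn i v - φ ≤ p i)
    {Jm : ℕ} {Nf : ℕ → ℕ → ℝ} (hNf : ∀ i < r, ∀ j : ℕ, j ≤ Jm → n i - (j : ℝ) * w ≤ Nf i j) {i : ℕ}
    (hi : i < r) {j : ℕ} (hj : j ≤ Jm) :
    Few S f (vg v') y (qJets m c 0 r Jm (fun _ _ => v) (fun l _ => p l) Nf)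
      (qJet m ((range i).image c) (c i) j v' (sn i v') (n i - (j : ℝ) * w)) := by
  rcases lt_or_ge (((j : ℝ) - 1) * (w - v')) (n i - sn i w + 3 * φ) with h | h
  · exact vuj_one L hf hy hw hwo hn hv hv' hbv hvv hv3 hvw hp hNf hi hj h
  · exact vuj_nat L hw hwo hv' (hbv.trans hvv) hvw hi h _

/-- **All jets over the charts of the base window** from positions and velocities over rough
charts. -/
theorem vuj_base (L : Lad S c r sn G b o φ)
    (hf : ∀ (J : ℕ) (F : Fam m J), ∃ χ : α J F → PtT F, ∀ ω, ptr F J ω = χ (f J F ω))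
    (hy : Kn ((range 0).image c) 1 1 y) {w : ℝ} {n p : ℕ → ℝ} (hw : w ∈ G) (hbw : b ≤ w)
    (hwo : w ≤ o) (hn : Nst r sn w φ n) (hp : ∀ i < r, sn i b - φ ≤ p i)
    (hnat : ∀ i < r, n i - sn i w + 3 * φ ≤ w - b) {Nf : ℕ → ℕ → ℝ}
    (hNf : ∀ i < r, ∀ j : ℕ, j ≤ 1 → n i - (j : ℝ) * w ≤ Nf i j) (Jm : ℕ) :
    Few S f (vg b) y (jetQ m c 0 r b p Nf) (qJets m c 0 r Jm (fun _ _ => b) (fun l _ => sn l b)
      (fun l j => n l - (j : ℝ) * w)) := by
  have hφ := L.φ0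
  refine few_qjets L.pos fun i _ hi j _ => ?_
  rcases Nat.lt_or_ge 1 j with h | h
  · refine vuj_nat L hw hwo L.bG le_rfl hbw hi ?_ _
    have h1 : (1 : ℝ) ≤ (j : ℝ) - 1 := by
      have : (2 : ℝ) ≤ j := by exact_mod_cast h
      linarith
    have h2 : 1 * (w - b) ≤ ((j : ℝ) - 1) * (w - b) :=
      mul_le_mul_of_nonneg_right h1 (by linarith)
    linarith [hnat i hi]
  · exact vuj_any L hf hy hw hwo hn L.bG L.bG le_rfl le_rfl (by linarith) hbw hp hNf hi h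

/-- **All jets over the charts of any window of `G`.** -/
theorem vuj_all (L : Lad S c r sn G b o φ)
    (hf : ∀ (J : ℕ) (F : Fam m J), ∃ χ : α J F → PtT F, ∀ ω, ptr F J ω = χ (f J F ω))
    (hy : Kn ((range 0).image c) 1 1 y) {w : ℝ} {n p : ℕ → ℝ} (hw : w ∈ G) (hbw : b ≤ w)
    (hwo : w ≤ o) (hn : Nst r sn w φ n) (hp : ∀ i < r, sn i b - φ ≤ p i)
    (hnat : ∀ i < r, n i - sn i w + 3 * φ ≤ w - b) {Nf : ℕ → ℕ → ℝ}
    (hNf : ∀ i < r, ∀ j : ℕ, j ≤ 1 → n i - (j : ℝ) * w ≤ Nf i j) (Jm k : ℕ) :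
    ∀ v ∈ G, b ≤ v → v ≤ w → v - b ≤ k * φ →
    Few S f (vg v) y (jetQ m c 0 r b p Nf) (qJets m c 0 r Jm (fun _ _ => v) (fun l _ => sn l v)
      (fun l j => n l - (j : ℝ) * w)) := by
  have hφ := L.φ0
  have hxs : ∀ x ∈ G, Exs S (qJets m c 0 r Jm (fun _ _ => x) (fun l _ => sn l x)
      (fun l j' => n l - (j' : ℝ) * w)) := fun x hx => by
    obtain ⟨u₁, rd, hrd, hch⟩ := L.ch.ch x hx
    exact exs_qjets fun l l0 l1 j' _ => exs_jet (hrd l l1) (hch.att l l0 l1)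
  have hstep : ∀ x ∈ G, ∀ v ∈ G, b ≤ x → x ≤ v → v ≤ x + 3 * φ → v ≤ w →
      Few S f (vg x) y (jetQ m c 0 r b p Nf) (qJets m c 0 r Jm (fun _ _ => x) (fun l _ => sn l x)
        (fun l j => n l - (j : ℝ) * w)) →
      Few S f (vg v) y (jetQ m c 0 r b p Nf) (qJets m c 0 r Jm (fun _ _ => v) (fun l _ => sn l v)
        (fun l j => n l - (j : ℝ) * w)) := by
    intro x hx v hv hbx hxv hv3 hvw h5
    obtain ⟨u₂, rd₂, hrd₂, hch₂⟩ := L.ch.ch v hv
    have hup : ∀ (J : ℕ) (F : Fam m J), ∃ χ : LnT F → LnT F, ∀ ω,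
        vg x J F ω = χ (vg v J F ω) := fun J F => vg_mono (by linarith) hch₂.u0.le J F
    exact Few.trans L.pos (hxs x hx)
      (Few.up (f' := f) (y' := y) L.pos (fun J F => ⟨fun x => x, fun _ => rfl⟩) hup
        (fun J F => ⟨fun x => x, fun _ => rfl⟩) h5)
      (few_qjets L.pos fun i _ hi j hj => vuj_any L hf hy hw hwo hn hx hv hbx hxv hv3 hvw
        (fun i _ => by linarith) (fun _ _ _ _ => le_rfl) hi hj)
  have hb := vuj_base L hf hy hw hbw hwo hn hp hnat hNf Jm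
  induction k with
  | zero =>
    intro v hv hbv hvw h1
    rw [Nat.cast_zero, zero_mul] at h1
    exact hstep b L.bG v hv le_rfl hbv (by linarith) hvw hb
  | succ k ih =>
    intro v hv hbv hvw h1
    rcases le_or_gt (v - b) (3 * φ) with h2 | h2
    · exact hstep b L.bG v hv le_rfl hbv (by linarith) hvw hb
    obtain ⟨x, hx, h3⟩ := L.gap (v - 2 * φ) (by linarith) (by linarith)
    have h4 := abs_le.1 h3
    push_cast at h1
    exact hstep x hx v hv (by linarith) (by linarith) (by linarith) hvw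
      (ih x hx (by linarith) (by linarith) (by linarith))

/-- **(VUJ)** The jet of any order of a coordinate of the chain over the charts of `w`. -/
theorem vuj_jet (L : Lad S c r sn G b o φ)
    (hf : ∀ (J : ℕ) (F : Fam m J), ∃ χ : α J F → PtT F, ∀ ω, ptr F J ω = χ (f J F ω))
    (hy : Kn ((range 0).image c) 1 1 y) {w ow : ℝ} {n p : ℕ → ℝ} (hw : w ∈ G) (hbw : b ≤ w)
    (hwo : w ≤ o) (how : w ≤ ow) (how1 : ow ≤ 1) (hn : Nst r sn w φ n)
    (hp : ∀ i < r, sn i b - φ ≤ p i)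
    (hnat : ∀ i < r, n i - sn i w + 3 * φ ≤ w - b) {Nf : ℕ → ℕ → ℝ}
    (hNf : ∀ i < r, ∀ j : ℕ, j ≤ 1 → n i - (j : ℝ) * w ≤ Nf i j) {i : ℕ} (hi : i < r) (j : ℕ) :
    Few S f (vg ow) y (jetQ m c 0 r b p Nf)
      (qJet m ((range i).image c) (c i) j w (sn i w) (n i - (j : ℝ) * w)) := by
  have hφ := L.φ0
  obtain ⟨k, hk⟩ := exists_nat_ge ((w - b) / φ)
  have h1 : w - b ≤ k * φ := by
    rwa [div_le_iff₀ L.φ0] at hk
  have h2 := vuj_all L hf hy hw hbw hwo hn hp hnat hNf j k w hw hbw le_rfl h1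
  obtain ⟨u₁, rd, hrd, hch⟩ := L.ch.ch w hw
  have hxs : Exs S (qJets m c 0 r j (fun _ _ => w) (fun l _ => sn l w)
      (fun l j' => n l - (j' : ℝ) * w)) :=
    exs_qjets fun l l0 l1 j' _ => exs_jet (hrd l l1) (hch.att l l0 l1)
  have h3 := Few.trans L.pos hxs h2
    (vuj_any L hf hy hw hwo hn hw hw hbw le_rfl (by linarith) le_rfl
      (fun i _ => by linarith) (fun _ _ _ _ => le_rfl) hi le_rfl)
  have hup : ∀ (J : ℕ) (F : Fam m J), ∃ χ : LnT F → LnT F, ∀ ω,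
      vg w J F ω = χ (vg ow J F ω) := fun J F => vg_mono (by linarith) how1 J F
  exact Few.up (f' := f) (y' := y) L.pos (fun J F => ⟨fun x => x, fun _ => rfl⟩) hup
    (fun J F => ⟨fun x => x, fun _ => rfl⟩) h3

/-- **The context** at the window `w`. -/
theorem vuj_ctx (L : Lad S c r sn G b o φ)
    (hf : ∀ (J : ℕ) (F : Fam m J), ∃ χ : α J F → PtT F, ∀ ω, ptr F J ω = χ (f J F ω))
    (hy : Kn ((range 0).image c) 1 1 y) {w ow lam : ℝ} {n p E rd : ℕ → ℝ}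
    (hE : ∀ i < r, E i ≤ 1) (hw : w ∈ G) (hbw : b ≤ w) (hwo : w ≤ o) (how : w ≤ ow) (how1 : ow ≤ 1) (hn : Nst r sn w φ n)
    (hp : ∀ i < r, sn i b - φ ≤ p i)
    (hnat : ∀ i < r, n i - sn i w + 3 * φ ≤ w - b) {Nf : ℕ → ℕ → ℝ}
    (hNf : ∀ i < r, ∀ j : ℕ, j ≤ 1 → n i - (j : ℝ) * w ≤ Nf i j)
    (hyl : Kn ((range 0).image c) (w + lam) lam y) (hlam : 0 ≤ lam)
    (hrd : ∀ i < r, 0 ≤ rd i) (K R : ℕ) (hR : r ≤ R) {δ : ℝ} (hδ : 0 < δ) :
    ∃ e₁ : ℝ, 0 < e₁ ∧ ∀ e : ℝ, 0 < e → e ≤ e₁ →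
      FwX S f (vg ow) y (jetQ m c 0 r b p Nf) c 0 R K E w rd (fun l => sn l w)
        (ctx c 0 r K w lam n) e δ := by
  classical
  obtain ⟨C₀, htm⟩ := L.tm
  obtain ⟨u₁, rd', -, hch⟩ := L.ch.ch w hw
  have h6 : (0 : ℝ) < (r + 1) * (K + 3) := by positivity
  choose! V hV0 hV using fun (l : ℕ) (hl : l < r) (j : ℕ) =>
    few_iff.1 (vuj_jet L hf hy hw hbw hwo how how1 hn hp hnat hNf hl j)
      (δ / 2 / ((r + 1) * (K + 3))) (by positivity)
  obtain ⟨e₁, he₁, hle⟩ : ∃ e₁ : ℝ, 0 < e₁ ∧ ∀ l < r, ∀ j < K + 3, e₁ ≤ V l j := by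
    have h1 : ∀ R' : ℕ, R' ≤ r → ∃ e₁ : ℝ, 0 < e₁ ∧ ∀ l < R', ∀ j < K + 3, e₁ ≤ V l j := by
      intro R'
      induction R' with
      | zero => exact fun _ => ⟨1, one_pos, fun l hl => absurd hl (Nat.not_lt_zero l)⟩
      | succ R' ih =>
        intro hR'
        obtain ⟨e₁, he₁, h1⟩ := ih (by omega)
        have h2 : ∀ M : ℕ, ∃ e₂ : ℝ, 0 < e₂ ∧ ∀ j < M, e₂ ≤ V R' j := by
          intro M
          induction M with
          | zero => exact ⟨1, one_pos, fun l hl => absurd hl (Nat.not_lt_zero l)⟩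
          | succ M ih =>
            obtain ⟨e₂, he₂, h2⟩ := ih
            refine ⟨min e₂ (V R' M), lt_min he₂ (hV0 R' (by omega) M), fun j hj => ?_⟩
            rcases Nat.lt_succ_iff_lt_or_eq.1 hj with h | h
            · exact (min_le_left _ _).trans (h2 j h)
            · rw [h]
              exact min_le_right _ _
        obtain ⟨e₂, he₂, h2⟩ := h2 (K + 3)
        refine ⟨min e₁ e₂, lt_min he₁ he₂, fun l hl j hj => ?_⟩
        rcases Nat.lt_succ_iff_lt_or_eq.1 hl with h | h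
        · exact (min_le_left _ _).trans (h1 l h j hj)
        · rw [h]
          exact (min_le_right _ _).trans (h2 j hj)
    exact h1 r le_rfl
  refine ⟨e₁, he₁, fun e he hle' K₀ => ?_⟩
  refine ctxK_few htm (fun i _ hi => hE i hi) hch.w0 how how1 hlam he (fun i _ hi => hrd i hi) hyl K
    (η := fun _ _ => δ / 2 / ((r + 1) * (K + 3))) (δ₁ := δ / 2) ?_
    (fun l _ hl j hj => (hV l hl j).mono (hle'.trans (hle l hl j hj)) le_rfl) (by linarith) K₀ R hR
  rw [Finset.sum_const, Finset.sum_const, Nat.card_Ico, Finset.card_range, nsmul_eq_mul,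
    nsmul_eq_mul]
  have h2 : ((r - 0 : ℕ) : ℝ) ≤ r + 1 := by
    rw [Nat.sub_zero]
    linarith
  push_cast
  calc ((r - 0 : ℕ) : ℝ) * ((K + 3) * (δ / 2 / ((r + 1) * (K + 3)))) ≤
        (r + 1) * ((K + 3) * (δ / 2 / ((r + 1) * (K + 3)))) :=
        mul_le_mul_of_nonneg_right h2 (by positivity)
    _ = δ / 2 := by
        field_simp

end Pool.V0F
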